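import Pool.Agent.helper74.RTD.ITR

/-!
# Project rps: (MP_70a088_an, rational maps): the POS lemma

Page: /team-store/MP_70a088_ALLRET_helper76.md, section 4; /team-store/MP_70a088_ALLRETREF_helper33.md, section 4.
A finite family of small returns at `y` whose directions span the plane positively: arbitrarily long iterates map a fixed ball about `y` near itself. No flatness, no Koebe theorem.
-/

set_option autoImplicit false

open Complex Metric Set Filter Topology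
open RTB
open RTD

noncomputable section

namespace RPS

/-- a family of small returns at `y`: `f^(m k)` is a translation by `v k` up to a relative error `th` on `ball y r`; the directions span positively with the constant `c`. -/
structure Fam (f : RM) (y : ℂ) (r th c : ℝ) {ι : Type} (m : ι → ℕ) (v : ι → ℂ) : Prop where
  r0 : 0 < r
  m1 : ∀ k, 1 ≤ m k
  v0 : ∀ k, v k ≠ 0
  vr : ∀ k, ‖v k‖ ≤ th * r
  gd : ∀ k, ∀ z ∈ ball y r, gd f (m k) z
  near : ∀ k, ∀ z ∈ ball y r, ‖it f (m k) z - z - v k‖ ≤ th * ‖v k‖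
  span : ∀ e : ℂ, ∃ k, (v k * (starRingEnd ℂ) e).re ≤ -c * ‖v k‖ * ‖e‖

/-- one greedy step, far from the centre. -/
theorem step_far {x y g v : ℂ} {c th : ℝ} (hc : 0 < c) (hth : th ≤ c / 4)
    (hv : ‖v‖ ≤ c * ‖x - y‖) (hg : ‖g - x - v‖ ≤ th * ‖v‖) (hs : (v * (starRingEnd ℂ) (x - y)).re ≤ -c * ‖v‖ * ‖x - y‖) :
    ‖g - y‖ ≤ ‖x - y‖ - c / 4 * ‖v‖ := by
  have hv0 := norm_nonneg v
  have hx0 := norm_nonneg (x - y)
  have h1 : ‖x - y + v‖ ^ 2 = ‖x - y‖ ^ 2 + 2 * (v * (starRingEnd ℂ) (x - y)).re + ‖v‖ ^ 2 := by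
    rw [← Complex.normSq_eq_norm_sq, ← Complex.normSq_eq_norm_sq, ← Complex.normSq_eq_norm_sq, Complex.normSq_add]
    have h2 : ((x - y) * (starRingEnd ℂ) v).re = (v * (starRingEnd ℂ) (x - y)).re := by
      simp only [Complex.mul_re, Complex.conj_re, Complex.conj_im]
      ring
    rw [h2]
    ring
  have hle : c * ‖v‖ ≤ ‖x - y‖ ∨ ‖x - y‖ < c * ‖v‖ := le_or_gt _ _
  have h2 : ‖x - y + v‖ ^ 2 ≤ ‖x - y‖ ^ 2 - c * ‖x - y‖ * ‖v‖ := by
    rw [h1]
    nlinarith [mul_nonneg hv0 hx0]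
  have h3 : ‖x - y + v‖ ≤ ‖x - y‖ - c / 2 * ‖v‖ := by
    have h4 : 0 ≤ ‖x - y‖ - c / 2 * ‖v‖ := by
      by_contra hcon
      push Not at hcon
      -- then `‖x - y‖ < c/2 ‖v‖` and the square is negative
      have h5 : ‖x - y + v‖ ^ 2 ≥ 0 := sq_nonneg _
      rcases eq_or_lt_of_le hx0 with h6 | h6
      · rw [← h6] at hv hcon
        have : ‖v‖ = 0 := le_antisymm (by linarith) hv0
        rw [this] at hcon
        linarith
      · have h7 : 0 ≤ ‖x - y‖ * (‖x - y‖ - c * ‖v‖) := by nlinarith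
        have h8 : 0 ≤ ‖x - y‖ - c * ‖v‖ := by
          by_contra h9
          push Not at h9
          have := mul_neg_of_pos_of_neg h6 h9
          linarith
        nlinarith
    apply le_of_sq_le_sq' h4
    nlinarith [sq_nonneg (c / 2 * ‖v‖)]
  have h4 : ‖g - y‖ ≤ ‖g - x - v‖ + ‖x - y + v‖ := by
    have : g - y = (g - x - v) + (x - y + v) := by ring
    rw [this]
    exact norm_add_le _ _
  nlinarith
where
  le_of_sq_le_sq' {a b : ℝ} (hb : 0 ≤ b) (h : a ^ 2 ≤ b ^ 2) : a ≤ b := by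
    exact le_of_sq_le_sq h hb

/-- one greedy step, near the centre. -/
theorem step_near {x y g v : ℂ} {c th B : ℝ} (hc : 0 < c) (hc1 : c ≤ 1) (hth : th ≤ 1)
    (hv : c * ‖x - y‖ ≤ ‖v‖) (hg : ‖g - x - v‖ ≤ th * ‖v‖) (hB : 3 * ‖v‖ ≤ c * B) :
    ‖g - y‖ ≤ B := by
  have hv0 := norm_nonneg v
  have h4 : ‖g - y‖ ≤ ‖g - x - v‖ + (‖x - y‖ + ‖v‖) := by
    have : g - y = (g - x - v) + ((x - y) + v) := by ring
    rw [this]
    refine (norm_add_le _ _).trans ?_
    have := norm_add_le (x - y) v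
    linarith
  have h5 : ‖g - y‖ ≤ ‖x - y‖ + 2 * ‖v‖ := by nlinarith
  have h6 : c * ‖g - y‖ ≤ c * B := by
    have h7 : c * ‖g - y‖ ≤ c * (‖x - y‖ + 2 * ‖v‖) := mul_le_mul_of_nonneg_left h5 hc.le
    have h8 : c * ‖v‖ ≤ 1 * ‖v‖ := mul_le_mul_of_nonneg_right hc1 hv0
    nlinarith
  exact le_of_mul_le_mul_left h6 hc

end RPS
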