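import Pool.Agent.helper52.RPS.Pos

/-!
# Project rps: the POS lemma, part 2: the derivative bound and the potential
-/

set_option autoImplicit false

open Complex Metric Set Filter Topology
open RTB
open RTD

noncomputable section

namespace RPS

/-- Cauchy: the derivative of a bounded function. -/
theorem cau {φ : ℂ → ℂ} {a : ℂ} {R C : ℝ} (hR : 0 < R) (hd : DifferentiableOn ℂ φ (ball a R))
    (hb : ∀ z ∈ ball a R, ‖φ z‖ ≤ C) : ‖deriv φ a‖ ≤ 2 * C / R := by
  have h1 : DiffContOnCl ℂ φ (ball a (R / 2)) := by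
    have hs : closedBall a (R / 2) ⊆ ball a R := closedBall_subset_ball (by linarith)
    exact (hd.mono hs).diffContOnCl_ball le_rfl
  have h2 := Complex.norm_deriv_le_of_forall_mem_sphere_norm_le (half_pos hR) h1
    (fun z hz => hb z (by rw [mem_ball]; rw [mem_sphere] at hz; rw [hz]; linarith))
  refine h2.trans (le_of_eq ?_)
  field_simp

/-- second order: `φ` bounded by `C` on `ball a R`: the error of the linear approximation at `a`. -/
theorem lin2 {φ : ℂ → ℂ} {a w : ℂ} {R C : ℝ} (hR : 0 < R) (hd : DifferentiableOn ℂ φ (ball a R))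
    (hb : ∀ z ∈ ball a R, ‖φ z‖ ≤ C) (hw : ‖w - a‖ ≤ R / 4) :
    ‖φ w - φ a - deriv φ a * (w - a)‖ ≤ 32 * C / R ^ 2 * ‖w - a‖ ^ 2 := by
  -- bound of the derivative on the half ball
  have h1 : ∀ z ∈ ball a (R / 2), ‖deriv φ z‖ ≤ 4 * C / R := by
    intro z hz
    have hs : ball z (R / 2) ⊆ ball a R := by
      intro u hu
      rw [mem_ball] at hu hz ⊢
      have := dist_triangle u z a
      linarith
    have := cau (half_pos hR) (hd.mono hs) (fun u hu => hb u (hs hu))
    refine this.trans (le_of_eq ?_)
    field_simp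
    ring
  have hd2 : DifferentiableOn ℂ (deriv φ) (ball a (R / 2)) :=
    (hd.deriv isOpen_ball).mono (ball_subset_ball (by linarith))
  -- bound of the second derivative on the quarter ball
  have h2 : ∀ z ∈ closedBall a (R / 4), ‖deriv φ z - deriv φ a‖ ≤ 16 * C / R ^ 2 * 2 * ‖z - a‖ := by
    intro z hz
    have h3 : ∀ u ∈ closedBall a (R / 4), ‖deriv (deriv φ) u‖ ≤ 32 * C / R ^ 2 := by
      intro u hu
      have hs : ball u (R / 4) ⊆ ball a (R / 2) := by
        intro t ht
        rw [mem_ball] at ht ⊢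
        rw [mem_closedBall] at hu
        have := dist_triangle t u a
        linarith
      have := cau (by linarith : 0 < R / 4) (hd2.mono hs) (fun t ht => h1 t (hs ht))
      refine this.trans (le_of_eq ?_)
      field_simp
      ring
    have h4 : ∀ u ∈ closedBall a (R / 4), DifferentiableAt ℂ (deriv φ) u := by
      intro u hu
      apply hd2.differentiableAt
      apply isOpen_ball.mem_nhds
      exact closedBall_subset_ball (by linarith) hu
    have h5 := (convex_closedBall a (R / 4)).norm_image_sub_le_of_norm_deriv_le h4 h3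
      (mem_closedBall_self (by linarith)) hz
    refine h5.trans (le_of_eq ?_)
    ring
  -- integrate
  have h6 : ∀ z ∈ closedBall a ‖w - a‖, ‖deriv φ z - deriv φ a‖ ≤ 32 * C / R ^ 2 * ‖w - a‖ := by
    intro z hz
    rw [mem_closedBall, dist_eq_norm] at hz
    have hC : 0 ≤ C := (norm_nonneg _).trans (hb a (mem_ball_self hR))
    refine (h2 z (by rw [mem_closedBall, dist_eq_norm]; linarith)).trans ?_
    have h7 : 0 ≤ 32 * C / R ^ 2 := by positivity
    have := mul_le_mul_of_nonneg_left hz h7
    calc 16 * C / R ^ 2 * 2 * ‖z - a‖ = 32 * C / R ^ 2 * ‖z - a‖ := by ring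
      _ ≤ _ := this
  have h8 : ∀ z ∈ closedBall a ‖w - a‖, HasDerivWithinAt (fun z => φ z - deriv φ a * z)
      (deriv φ z - deriv φ a) (closedBall a ‖w - a‖) z := by
    intro z hz
    have hz2 : z ∈ ball a R := by
      rw [mem_closedBall] at hz
      rw [mem_ball]
      have : ‖w - a‖ < R := by linarith
      linarith
    have h9 := (hd.differentiableAt (isOpen_ball.mem_nhds hz2)).hasDerivAt
    have h10 : HasDerivAt (fun z => deriv φ a * z) (deriv φ a) z := by
      simpa using (hasDerivAt_id z).const_mul (deriv φ a)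
    exact (h9.sub h10).hasDerivWithinAt
  have h9 := (convex_closedBall a ‖w - a‖).norm_image_sub_le_of_norm_hasDerivWithin_le h8 h6
    (mem_closedBall_self (norm_nonneg _)) (y := w) (by rw [mem_closedBall, dist_eq_norm])
  have h10 : φ w - deriv φ a * w - (φ a - deriv φ a * a) = φ w - φ a - deriv φ a * (w - a) := by ring
  rw [h10] at h9
  refine h9.trans (le_of_eq ?_)
  ring

/-- the state of the walk. -/
structure Gd (f : RM) (y : ℂ) (r ε B : ℝ) (M : ℕ) : Prop where
  gd : ∀ z ∈ ball y (r / 4), gd f M z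
  near : ∀ z ∈ ball y (r / 4), ‖it f M z - z‖ ≤ ε * r
  cen : ‖it f M y - y‖ ≤ B

/-- commutation: the displacement `φ = it f M - id` changes little along a small return. -/
theorem comm {f : RM} {y : ℂ} {r th c : ℝ} {ι : Type} {m : ι → ℕ} {v : ι → ℂ} (H : Fam f y r th c m v)
    (M : ℕ) (k : ι) (z : ℂ) (hz : z ∈ ball y r) (hM : it f M z ∈ ball y r) :
    ‖(it f M (it f (m k) z) - it f (m k) z) - (it f M z - z)‖ ≤ 2 * th * ‖v k‖ := by
  have h1 : it f M (it f (m k) z) = it f (m k) (it f M z) := by
    rw [← RTDC.ITR_add, ← RTDC.ITR_add, Nat.add_comm]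
  rw [h1]
  have h2 := H.near k z hz
  have h3 := H.near k _ hM
  have h4 : it f (m k) (it f M z) - it f (m k) z - (it f M z - z)
      = (it f (m k) (it f M z) - it f M z - v k) - (it f (m k) z - z - v k) := by ring
  rw [h4]
  refine (norm_sub_le _ _).trans ?_
  linarith

end RPS
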