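import Pool.Agent.helper52.RPS.Pos2

/-!
# Project rps: the POS lemma, part 3: the induction step
-/

set_option autoImplicit false

open Complex Metric Set Filter Topology
open RTB
open RTD

noncomputable section

namespace RPS

variable {f : RM} {y : ℂ} {r th c ε : ℝ} {ι : Type} {m : ι → ℕ} {v : ι → ℂ}

/-- the step of a small return is between `(1-th)|v|` and `(1+th)|v|`. -/
theorem Fam.lo (H : Fam f y r th c m v) (k : ι) {z : ℂ} (hz : z ∈ ball y r) :
    (1 - th) * ‖v k‖ ≤ ‖it f (m k) z - z‖ := by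
  have h1 := H.near k z hz
  have h2 : v k = (it f (m k) z - z) - (it f (m k) z - z - v k) := by ring
  have h3 := norm_sub_le (it f (m k) z - z) (it f (m k) z - z - v k)
  rw [← h2] at h3
  linarith

theorem Fam.hi (H : Fam f y r th c m v) (k : ι) {z : ℂ} (hz : z ∈ ball y r) :
    ‖it f (m k) z - z‖ ≤ (1 + th) * ‖v k‖ := by
  have h1 := H.near k z hz
  have h2 : it f (m k) z - z = (it f (m k) z - z - v k) + v k := by ring
  rw [h2]
  refine (norm_add_le _ _).trans ?_
  linarith

/-- the displacement is holomorphic. -/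
theorem dphi (f : RM) (M : ℕ) {s : Set ℂ} (hs : ∀ z ∈ s, gd f M z) :
    DifferentiableOn ℂ (fun z => it f M z - z) s := by
  intro z hz
  exact ((RTDC.ITR_der f M z (hs z hz)).sub (hasDerivAt_id z)).differentiableAt.differentiableWithinAt

/-- (a) the derivative of the displacement is `O(th)` on the small ball. -/
theorem der_small (H : Fam f y r th c m v) (k : ι) (hth0 : 0 ≤ th) (hth : th ≤ 1 / 1024) (he : ε ≤ 1 / 16)
    (he0 : 0 ≤ ε)
    {M : ℕ} (hg : ∀ z ∈ ball y (r / 4), gd f M z) (hb : ∀ z ∈ ball y (r / 4), ‖it f M z - z‖ ≤ 2 * ε * r)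
    {a : ℂ} (ha : a ∈ ball y (r / 8)) : ‖deriv (fun z => it f M z - z) a‖ ≤ 264 * th := by
  have hr := H.r0
  set φ : ℂ → ℂ := fun z => it f M z - z with hφ
  have hs : ball a (r / 8) ⊆ ball y (r / 4) := by
    intro u hu
    rw [mem_ball] at hu ha ⊢
    have := dist_triangle u a y
    linarith
  have haR : a ∈ ball y r := by
    rw [mem_ball] at ha ⊢
    linarith
  have hv0 : 0 < ‖v k‖ := norm_pos_iff.2 (H.v0 k)
  have hvr := H.vr k
  set w : ℂ := it f (m k) a with hw
  have hlo := H.lo k haR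
  have hhi := H.hi k haR
  rw [← hw] at hlo hhi
  have hwa : ‖w - a‖ ≤ r / 8 / 4 := by nlinarith
  have h1 := lin2 (R := r / 8) (C := 2 * ε * r) (w := w) (by linarith) ((dphi f M hg).mono hs)
    (fun z hz => hb z (hs hz)) hwa
  have h2 : ‖φ w - φ a‖ ≤ 2 * th * ‖v k‖ := by
    apply comm H M k a haR
    have h3 := hb a (ball_subset_ball (by linarith) ha)
    rw [mem_ball, dist_eq_norm] at ha ⊢
    have h4 : it f M a - y = (it f M a - a) + (a - y) := by ring
    rw [h4]
    refine (norm_add_le _ _).trans_lt ?_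
    nlinarith
  have h3 : ‖deriv φ a * (w - a)‖ ≤ 2 * th * ‖v k‖ + 32 * (2 * ε * r) / (r / 8) ^ 2 * ‖w - a‖ ^ 2 := by
    have h4 : deriv φ a * (w - a) = (φ w - φ a) - (φ w - φ a - deriv φ a * (w - a)) := by ring
    rw [h4]
    refine (norm_sub_le _ _).trans ?_
    exact add_le_add h2 h1
  rw [norm_mul] at h3
  have h5 : 32 * (2 * ε * r) / (r / 8) ^ 2 * ‖w - a‖ ^ 2 ≤ 257 * th * ‖v k‖ := by
    have h6 : 32 * (2 * ε * r) / (r / 8) ^ 2 = 4096 * ε / r := by
      field_simp
      ring
    rw [h6]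
    have h7 : ‖w - a‖ ^ 2 ≤ (1 + th) ^ 2 * ‖v k‖ ^ 2 := by
      have := pow_le_pow_left₀ (norm_nonneg _) hhi 2
      rwa [mul_pow] at this
    have h8 : (1 + th) ^ 2 ≤ 257 / 256 := by nlinarith
    have h9 : ‖v k‖ ^ 2 ≤ ‖v k‖ * (th * r) := by nlinarith
    have h10 : 0 ≤ 4096 * ε / r := by positivity
    calc 4096 * ε / r * ‖w - a‖ ^ 2 ≤ 4096 * ε / r * ((257 / 256) * (‖v k‖ * (th * r))) := by
          apply mul_le_mul_of_nonneg_left _ h10
          refine h7.trans ?_
          apply mul_le_mul h8 h9 (by positivity) (by norm_num)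
      _ = 4096 * ε * (257 / 256) * (th * ‖v k‖) := by
          field_simp
      _ ≤ 256 * (257 / 256) * (th * ‖v k‖) := by
          apply mul_le_mul_of_nonneg_right _ (by positivity)
          nlinarith
      _ = 257 * th * ‖v k‖ := by ring
  have h6 : ‖deriv φ a‖ * ((1 - th) * ‖v k‖) ≤ 259 * th * ‖v k‖ := by
    calc ‖deriv φ a‖ * ((1 - th) * ‖v k‖) ≤ ‖deriv φ a‖ * ‖w - a‖ :=
          mul_le_mul_of_nonneg_left hlo (norm_nonneg _)
      _ ≤ _ := h3
      _ ≤ 259 * th * ‖v k‖ := by linarith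
  have h7 : ‖deriv φ a‖ * (1 - th) ≤ 259 * th := by
    apply le_of_mul_le_mul_right _ hv0
    calc ‖deriv φ a‖ * (1 - th) * ‖v k‖ = ‖deriv φ a‖ * ((1 - th) * ‖v k‖) := by ring
      _ ≤ _ := h6
  nlinarith [norm_nonneg (deriv φ a)]

/-- (a') the displacement on the small ball. -/
theorem small_ball (H : Fam f y r th c m v) (k : ι) (hth0 : 0 ≤ th) (hth : th ≤ 1 / 1024) (he : ε ≤ 1 / 16)
    (he0 : 0 ≤ ε)
    {M : ℕ} (hg : ∀ z ∈ ball y (r / 4), gd f M z) (hb : ∀ z ∈ ball y (r / 4), ‖it f M z - z‖ ≤ 2 * ε * r)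
    {B : ℝ} (hB : ‖it f M y - y‖ ≤ B) {a : ℂ} (ha : a ∈ ball y (r / 8)) :
    ‖it f M a - a‖ ≤ B + 33 * th * r := by
  have hr := H.r0
  have hd : ∀ x ∈ ball y (r / 8), DifferentiableAt ℂ (fun z => it f M z - z) x := by
    intro x hx
    have h2 : x ∈ ball y (r / 4) := ball_subset_ball (by linarith) hx
    exact (dphi f M hg).differentiableAt (isOpen_ball.mem_nhds h2)
  have h1 := (convex_ball y (r / 8)).norm_image_sub_le_of_norm_deriv_le hd
    (fun x hx => der_small H k hth0 hth he he0 hg hb hx) (mem_ball_self (by linarith)) ha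
  have h2 : it f M a - a = ((it f M a - a) - (it f M y - y)) + (it f M y - y) := by ring
  rw [h2]
  refine (norm_add_le _ _).trans ?_
  have h3 : ‖a - y‖ ≤ r / 8 := by
    rw [mem_ball, dist_eq_norm] at ha
    exact ha.le
  have h4 : 264 * th * ‖a - y‖ ≤ 264 * th * (r / 8) := mul_le_mul_of_nonneg_left h3 (by positivity)
  have h5 : ‖(it f M a - a) - (it f M y - y)‖ ≤ 264 * th * ‖a - y‖ := h1
  linarith

/-- (b) the potential. -/
theorem potential [Finite ι] (H : Fam f y r th c m v) (hc : 0 < c) (hc1 : c ≤ 1) (hth0 : 0 ≤ th) (hth : th ≤ c / 1024)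
    (he : ε ≤ 1 / 16) (he0 : 0 ≤ ε)
    {M : ℕ} (hb : ∀ z ∈ ball y (r / 4), ‖it f M z - z‖ ≤ 2 * ε * r)
    {A : ℝ} (hA : ∀ z ∈ ball y (r / 8), ‖it f M z - z‖ ≤ A) :
    ∀ z ∈ ball y (r / 4), ‖it f M z - z‖ ≤ A + 8 * th / c * ‖z - y‖ := by
  have hr := H.r0
  have hA0 : 0 ≤ A := (norm_nonneg _).trans (hA y (mem_ball_self (by linarith)))
  obtain ⟨δ, hδ, hδv⟩ : ∃ δ : ℝ, 0 < δ ∧ ∀ k, δ ≤ ‖v k‖ := by
    rcases isEmpty_or_nonempty ι with h | h
    · exact ⟨1, one_pos, fun k => (h.false k).elim⟩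
    · obtain ⟨k, hk⟩ := Finite.exists_min (fun k => ‖v k‖)
      exact ⟨‖v k‖, norm_pos_iff.2 (H.v0 k), hk⟩
  have key : ∀ n : ℕ, ∀ x, ‖x - y‖ < r / 4 → ‖x - y‖ < r / 8 + n * (c / 4 * δ) →
      ‖it f M x - x‖ ≤ A + 8 * th / c * ‖x - y‖ := by
    intro n
    induction n with
    | zero =>
      intro x _ h2
      have h3 : x ∈ ball y (r / 8) := by
        rw [mem_ball, dist_eq_norm]
        simpa using h2
      have h4 : 0 ≤ 8 * th / c * ‖x - y‖ := by positivity
      have := hA x h3
      linarith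
    | succ n ih =>
      intro x h1 h2
      rcases lt_or_ge ‖x - y‖ (r / 8) with h3 | h3
      · have h3' : x ∈ ball y (r / 8) := by
          rw [mem_ball, dist_eq_norm]
          exact h3
        have h4 : 0 ≤ 8 * th / c * ‖x - y‖ := by positivity
        have := hA x h3'
        linarith
      · obtain ⟨k, hk⟩ := H.span (x - y)
        have hvk := H.vr k
        have hv0 := norm_nonneg (v k)
        have hx4 : x ∈ ball y (r / 4) := by
          rw [mem_ball, dist_eq_norm]
          exact h1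
        have hxr : x ∈ ball y r := ball_subset_ball (by linarith) hx4
        have h4 : ‖v k‖ ≤ c * ‖x - y‖ := by nlinarith
        have h5 := step_far hc (by linarith) h4 (H.near k x hxr) hk
        have h6 : ‖it f (m k) x - y‖ < r / 4 := by nlinarith [mul_nonneg (by linarith : 0 ≤ c / 4) hv0]
        have h7 : ‖it f (m k) x - y‖ < r / 8 + n * (c / 4 * δ) := by
          have h8 : c / 4 * δ ≤ c / 4 * ‖v k‖ := mul_le_mul_of_nonneg_left (hδv k) (by linarith)
          push_cast at h2
          linarith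
        have h8 := ih _ h6 h7
        have h9 : it f M x ∈ ball y r := by
          have h3 := hb x hx4
          rw [mem_ball, dist_eq_norm]
          have h4 : it f M x - y = (it f M x - x) + (x - y) := by ring
          rw [h4]
          refine (norm_add_le _ _).trans_lt ?_
          nlinarith
        have h10 := comm H M k x hxr h9
        have h11 : ‖it f M x - x‖ ≤ 2 * th * ‖v k‖ + ‖it f M (it f (m k) x) - it f (m k) x‖ := by
          have h12 : it f M x - x = (it f M (it f (m k) x) - it f (m k) x)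
            - ((it f M (it f (m k) x) - it f (m k) x) - (it f M x - x)) := by ring
          have h13 := norm_sub_le (it f M (it f (m k) x) - it f (m k) x)
            ((it f M (it f (m k) x) - it f (m k) x) - (it f M x - x))
          rw [← h12] at h13
          linarith
        have h12 : 8 * th / c * ‖it f (m k) x - y‖ ≤ 8 * th / c * (‖x - y‖ - c / 4 * ‖v k‖) :=
          mul_le_mul_of_nonneg_left h5 (by positivity)
        have h13 : 8 * th / c * (‖x - y‖ - c / 4 * ‖v k‖) = 8 * th / c * ‖x - y‖ - 2 * th * ‖v k‖ := by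
          field_simp
          ring
        linarith
  intro z hz
  rw [mem_ball, dist_eq_norm] at hz
  obtain ⟨n, hn⟩ := exists_nat_gt (r / 4 / (c / 4 * δ))
  apply key n z hz
  rw [div_lt_iff₀ (by positivity)] at hn
  linarith

/-- the induction step of POS. -/
theorem pstep [Finite ι] (H : Fam f y r th c m v) (hc : 0 < c) (hc1 : c ≤ 1) (he : ε ≤ 1 / 16) (he0 : 0 < ε)
    (hth0 : 0 ≤ th) (hth : th ≤ c * ε / 64) {M : ℕ} (G : Gd f y r ε (3 * th * r / c) M) :
    ∃ k, Gd f y r ε (3 * th * r / c) (m k + M) := by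
  have hr := H.r0
  have hth1 : th ≤ c / 1024 := by nlinarith
  have hth2 : th ≤ 1 / 1024 := by linarith
  have hthe : th ≤ ε := by nlinarith
  obtain ⟨k, hk⟩ := H.span (it f M y - y)
  have hvk := H.vr k
  have hv0 := norm_nonneg (v k)
  have hin : ∀ z ∈ ball y (r / 4), it f M z ∈ ball y r := by
    intro z hz
    have h1 := G.near z hz
    rw [mem_ball, dist_eq_norm] at hz ⊢
    have h2 : it f M z - y = (it f M z - z) + (z - y) := by ring
    rw [h2]
    refine (norm_add_le _ _).trans_lt ?_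
    nlinarith
  have hg : ∀ z ∈ ball y (r / 4), gd f (m k + M) z := by
    intro z hz
    rw [RTDC.ITR_gd]
    exact ⟨G.gd z hz, H.gd k _ (hin z hz)⟩
  have hb : ∀ z ∈ ball y (r / 4), ‖it f (m k + M) z - z‖ ≤ 2 * ε * r := by
    intro z hz
    rw [RTDC.ITR_add]
    have h1 := H.hi k (hin z hz)
    have h2 := G.near z hz
    have h3 : it f (m k) (it f M z) - z = (it f (m k) (it f M z) - it f M z) + (it f M z - z) := by ring
    rw [h3]
    refine (norm_add_le _ _).trans ?_
    have h4 : (1 + th) * ‖v k‖ ≤ ε * r := by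
      have h5 : (1 + th) * ‖v k‖ ≤ (1 + th) * (th * r) := mul_le_mul_of_nonneg_left hvk (by linarith)
      have h6 : (1 + th) * th ≤ ε := by nlinarith
      have h7 := mul_le_mul_of_nonneg_right h6 hr.le
      nlinarith
    linarith
  have hcen : ‖it f (m k + M) y - y‖ ≤ 3 * th * r / c := by
    rw [RTDC.ITR_add]
    have hy : y ∈ ball y (r / 4) := mem_ball_self (by linarith)
    have h1 := H.near k _ (hin y hy)
    rcases le_or_gt ‖v k‖ (c * ‖it f M y - y‖) with h2 | h2
    · have h3 := step_far hc (by linarith) h2 h1 hk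
      have h4 := G.cen
      have h5 : 0 ≤ c / 4 * ‖v k‖ := by positivity
      linarith
    · apply step_near hc hc1 (by linarith) h2.le h1
      rw [mul_div_cancel₀ _ hc.ne']
      nlinarith
  refine ⟨k, hg, ?_, hcen⟩
  intro z hz
  have hA := fun z hz => small_ball H k hth0 hth2 he he0.le hg hb hcen (a := z) hz
  have h1 := potential H hc hc1 hth0 hth1 he he0.le hb hA z hz
  refine h1.trans ?_
  have h2 : ‖z - y‖ ≤ r / 4 := by
    rw [mem_ball, dist_eq_norm] at hz
    exact hz.le
  have h3 : 8 * th / c * ‖z - y‖ ≤ 8 * th / c * (r / 4) := mul_le_mul_of_nonneg_left h2 (by positivity)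
  have h4 : 3 * th * r / c + 33 * th * r + 8 * th / c * (r / 4) = (5 + 33 * c) * (th / c) * r := by
    field_simp
    ring
  have h5 : th / c ≤ ε / 64 := by
    rw [div_le_iff₀ hc]
    linarith
  have h6 : (5 + 33 * c) * (th / c) * r ≤ 38 * (ε / 64) * r := by
    apply mul_le_mul_of_nonneg_right _ hr.le
    apply mul_le_mul (by linarith) h5 (by positivity) (by norm_num)
  nlinarith

/-- **POS**: a positively spanning finite family of small returns: arbitrarily long iterates are near the identity on a fixed ball. -/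
theorem pos [Finite ι] (H : Fam f y r th c m v) (hc : 0 < c) (hc1 : c ≤ 1) (he : ε ≤ 1 / 16) (he0 : 0 < ε)
    (hth0 : 0 ≤ th) (hth : th ≤ c * ε / 64) (N : ℕ) :
    ∃ M, N ≤ M ∧ Gd f y r ε (3 * th * r / c) M := by
  induction N with
  | zero =>
    have hr := H.r0
    refine ⟨0, le_rfl, ⟨fun z _ j hj => (Nat.not_lt_zero j hj).elim, fun z _ => ?_, ?_⟩⟩
    · simp [it]
      positivity
    · simp [it]
      positivity
  | succ N ih =>
    obtain ⟨M, hM, G⟩ := ih
    obtain ⟨k, G'⟩ := pstep H hc hc1 he he0 hth0 hth G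
    exact ⟨m k + M, by have := H.m1 k; omega, G'⟩

end RPS
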