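import Pool.Agent.helper52.RPS.Pos3
import Pool.Agent.helper52.C0R.Defs
import Pool.Agent.helper57.V3.TMO

/-!
# Project rps: the POS lemma, part 4: no positively spanning family of small returns at a Julia point
-/

set_option autoImplicit false

open Complex Metric Set Filter Topology
open RTB
open RTD

noncomputable section

namespace RPS

variable {f : RM} {y : ℂ} {r th c ε : ℝ} {ι : Type} {m : ι → ℕ} {v : ι → ℂ}

/-- `J` is forward invariant along good orbits. -/
theorem JHit {J : Set ℂ} (hJ : JH f J) (M : ℕ) {z : ℂ} (hz : z ∈ J) (hg : gd f M z) : it f M z ∈ J := by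
  induction M with
  | zero => simpa [it] using hz
  | succ M ih =>
    rw [RTDC.ITR_gds] at hg
    rw [RTDC.ITR_succ]
    exact hJ.inv _ (ih hg.1) hg.2

/-- the image of a near identity map contains a ball. -/
theorem cover {F : ℂ → ℂ} {R η : ℝ} (hR : 0 < R) (hη : η ≤ R / 4) (hd : DifferentiableOn ℂ F (closedBall y R))
    (hb : ∀ z ∈ closedBall y R, ‖F z - z‖ ≤ η) {w : ℂ} (hw : w ∈ ball (F y) (R / 4)) :
    ∃ z ∈ closedBall y R, F z = w := by
  have hy : y ∈ closedBall y R := mem_closedBall_self hR.le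
  have h1 : DiffContOnCl ℂ F (ball y R) := hd.diffContOnCl_ball le_rfl
  have hη0 : 0 ≤ η := (norm_nonneg _).trans (hb y hy)
  have h2 : ∀ z ∈ sphere y R, R / 2 ≤ ‖F z - F y‖ := by
    intro z hz
    have hz1 : z ∈ closedBall y R := sphere_subset_closedBall hz
    rw [mem_sphere, dist_eq_norm] at hz
    have h3 : z - y = (F z - F y) - (F z - z) + (F y - y) := by ring
    have h4 := norm_add_le ((F z - F y) - (F z - z)) (F y - y)
    rw [← h3] at h4
    have h5 := norm_sub_le (F z - F y) (F z - z)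
    have h6 := hb z hz1
    have h7 := hb y hy
    linarith
  have h3 : ∃ᶠ z in 𝓝 y, F z ≠ F y := by
    intro hcon
    have hcon2 : ∀ᶠ z in 𝓝 y, F z = F y := by
      filter_upwards [hcon] with z hz
      exact not_not.1 hz
    have hA : AnalyticOnNhd ℂ F (ball y R) :=
      (hd.mono ball_subset_closedBall).analyticOnNhd isOpen_ball
    have hE := hA.eqOn_of_preconnected_of_eventuallyEq (analyticOnNhd_const (v := F y))
      (convex_ball y R).isPreconnected (mem_ball_self hR) hcon2
    have h5 : ‖(y + ((3 * R / 4 : ℝ) : ℂ)) - y‖ = 3 * R / 4 := by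
      rw [add_sub_cancel_left, Complex.norm_real, Real.norm_eq_abs, abs_of_pos (by linarith)]
    have h6 : y + ((3 * R / 4 : ℝ) : ℂ) ∈ ball y R := by
      rw [mem_ball, dist_eq_norm, h5]
      linarith
    have h7 := hE h6
    have h8 := hb _ (ball_subset_closedBall h6)
    have h9 := hb y hy
    simp only at h7
    rw [h7] at h8
    have h10 : (y + ((3 * R / 4 : ℝ) : ℂ)) - y = (F y - y) - (F y - (y + ((3 * R / 4 : ℝ) : ℂ))) := by ring
    rw [h10] at h5
    have h11 := norm_sub_le (F y - y) (F y - (y + ((3 * R / 4 : ℝ) : ℂ)))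
    rw [h5] at h11
    linarith
  have h4 := h1.ball_subset_image_closedBall hR h2 h3
  have h5 : w ∈ ball (F y) (R / 2 / 2) := by
    have : R / 2 / 2 = R / 4 := by ring
    rw [this]
    exact hw
  obtain ⟨z, hz, hzw⟩ := h4 h5
  exact ⟨z, hz, hzw⟩

/-- **POSF**: at a point of the Julia set there is no positively spanning finite family of small returns. -/
theorem posF [Finite ι] {J : Set ℂ} (hJ : JH f J) (hy : y ∈ J) (H : Fam f y r th c m v) (hc : 0 < c) (hc1 : c ≤ 1)
    (hth0 : 0 ≤ th) (hth : th ≤ c / 2048) : False := by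
  have hr := H.r0
  have hP := pos H hc hc1 (ε := 1 / 32) (by norm_num) (by norm_num) hth0 (by linarith)
  choose a ha hG using hP
  -- the limit along an ultrafilter
  let U : Ultrafilter ℕ := Filter.hyperfilter ℕ
  have hU : (U : Filter ℕ) ≤ atTop := Nat.hyperfilter_le_atTop
  obtain ⟨F, -, hF⟩ := V3.TMO U (fun N z => it f (a N) z - z) (ball y (r / 4)) isOpen_ball (by
    intro x hx
    obtain ⟨s, hs, hs2⟩ := Metric.isOpen_iff.1 (isOpen_ball (x := y) (ε := r / 4)) x hx
    refine ⟨s, hs, 1 / 32 * r, Filter.Eventually.of_forall fun N => ⟨?_, fun z hz => (hG N).near z (hs2 hz)⟩⟩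
    exact (dphi f (a N) (hG N).gd).mono hs2)
  have hsub : closedBall y (r / 8) ⊆ ball y (r / 4) := closedBall_subset_ball (by linarith)
  have hK : TendstoUniformlyOn (fun N z => it f (a N) z - z) F U (closedBall y (r / 8)) :=
    (tendstoLocallyUniformlyOn_iff_forall_isCompact isOpen_ball).1 hF _ hsub (isCompact_closedBall _ _)
  obtain ⟨ε', hε', hnr⟩ := hJ.nr (‖y‖ + r) (r / 32) (by linarith)
  rw [Metric.tendstoUniformlyOn_iff] at hK
  have hK1 := hK (ε' / 2) (by linarith)
  obtain ⟨N, hN⟩ := hK1.exists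
  have h2 : ∀ᶠ n in (U : Filter ℕ), a N < n := hU (eventually_gt_atTop (a N))
  obtain ⟨N', hN', hNN⟩ := (hK1.and h2).exists
  have h3 : a N < a N' := lt_of_lt_of_le hNN (ha N')
  obtain ⟨k, hk1, hk⟩ : ∃ k, 1 ≤ k ∧ a N' = k + a N := ⟨a N' - a N, by omega, by omega⟩
  have hyb : y ∈ ball y (r / 4) := mem_ball_self (by linarith)
  have hyJ : it f (a N) y ∈ J := JHit hJ _ hy ((hG N).gd y hyb)
  have h5 : ‖it f (a N) y - y‖ ≤ 1 / 32 * r := (hG N).near y hyb
  have hyR : ‖it f (a N) y‖ ≤ ‖y‖ + r := by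
    have h6 : it f (a N) y = (it f (a N) y - y) + y := by ring
    rw [h6]
    refine (norm_add_le _ _).trans ?_
    linarith
  have hdF : DifferentiableOn ℂ (it f (a N)) (closedBall y (r / 8)) := by
    intro z hz
    exact (RTDC.ITR_der f _ z ((hG N).gd z (hsub hz))).differentiableAt.differentiableWithinAt
  have hcov : ∀ w ∈ ball (it f (a N) y) (r / 32), ∃ z ∈ closedBall y (r / 8), it f (a N) z = w := by
    intro w hw
    apply cover (η := 1 / 32 * r) (by linarith) (by linarith) hdF (fun z hz => (hG N).near z (hsub hz))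
    have : r / 8 / 4 = r / 32 := by ring
    rw [this]
    exact hw
  obtain ⟨w, hw, hw2⟩ := hnr _ hyJ hyR k hk1 (by
    intro w hw
    obtain ⟨z, hz, hzw⟩ := hcov w hw
    have h6 := (hG N').gd z (hsub hz)
    rw [hk, RTDC.ITR_gd, hzw] at h6
    exact h6.2)
  obtain ⟨z, hz, hzw⟩ := hcov w hw
  have h6 : it f k w = it f (a N') z := by
    rw [← hzw, ← RTDC.ITR_add, hk]
  have h7 := hN z hz
  have h8 := hN' z hz
  rw [dist_comm] at h7
  have h9 := dist_triangle (it f (a N) z - z) (F z) (it f (a N') z - z)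
  rw [dist_comm (it f (a N) z - z), dist_comm (F z) _] at h9
  have h10 : dist (it f (a N') z - z) (it f (a N) z - z) < ε' := by
    rw [dist_comm] at h8
    linarith
  rw [dist_eq_norm] at h10
  have h11 : it f k w - w = (it f (a N') z - z) - (it f (a N) z - z) := by
    rw [h6, ← hzw]
    ring
  rw [h11] at hw2
  linarith

end RPS
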